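import Pool.Agent.Q141.BW.Basic

/-!
# Automorphisms of the Barnes-Wall lattices acting trivially modulo `1 + i`
-/

set_option autoImplicit false

open Complex

namespace Pool.Agent.Q141.BW

variable {k : ℕ}

/-- The isometries acting trivially on the lattice modulo `1 + i`. -/
def Aut (k : ℕ) : Set (V k ≃ₗ[ℂ] V k) :=
  {g | (∀ x y, ip (g x) (g y) = ip x y) ∧ ∀ x ∈ L k, Cong (g x) x}

theorem mem_L_of_cong {x y : V k} (h : Cong x y) (hy : y ∈ L k) : x ∈ L k := by
  obtain ⟨e, he, h⟩ := h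
  have : x = y + φ • e := by rw [← h]; abel
  rw [this]; exact L_add hy (L_φ he)

theorem Aut_X {g : V k ≃ₗ[ℂ] V k} (hg : g ∈ Aut k) {x : V k} (hx : x ∈ X k) : g x ∈ X k :=
  ⟨mem_L_of_cong (hg.2 x hx.1) hx.1, by rw [hg.1, hx.2]⟩

theorem Aut_trans {g h : V k ≃ₗ[ℂ] V k} (hg : g ∈ Aut k) (hh : h ∈ Aut k) :
    h.trans g ∈ Aut k := by
  refine ⟨fun x y => ?_, fun x hx => ?_⟩
  · rw [LinearEquiv.trans_apply, LinearEquiv.trans_apply, hg.1, hh.1]
  · rw [LinearEquiv.trans_apply]
    exact (hg.2 _ (mem_L_of_cong (hh.2 x hx) hx)).trans (hh.2 x hx)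

theorem Aut_one : LinearEquiv.refl ℂ (V k) ∈ Aut k :=
  ⟨fun _ _ => rfl, fun x _ => Cong.refl x⟩

theorem ip_symm {g : V k ≃ₗ[ℂ] V k} (hg : g ∈ Aut k) (x y : V k) :
    ip x (g.symm y) = ip (g x) y := by
  rw [← hg.1, LinearEquiv.apply_symm_apply]

/-- Multiplication by `i`. -/
noncomputable def mulI (k : ℕ) : V k ≃ₗ[ℂ] V k := LinearEquiv.smulOfNeZero ℂ (V k) I I_ne_zero

theorem mulI_apply (x : V k) : mulI k x = I • x := rfl

theorem mulI_mem : mulI k ∈ Aut k := by
  refine ⟨fun x y => ?_, fun x hx => ?_⟩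
  · rw [mulI_apply, mulI_apply, ip_I_left, smul_smul, I_mul_I, neg_smul, one_smul, ip_neg_right,
      neg_neg]
  · rw [mulI_apply]; exact cong_I hx

/-- Pairs as a linear equivalence. -/
def pairL (k : ℕ) : (V k × V k) ≃ₗ[ℂ] V (k + 1) where
  toFun p := pair p.1 p.2
  invFun x := (lo x, hi x)
  left_inv p := by simp
  right_inv x := pair_lo_hi x
  map_add' p q := by rw [pair_add]; rfl
  map_smul' r p := by rw [RingHom.id_apply, pair_smul]; rfl

/-- `(a, b) ↦ (g a, g b)`. -/
def dbl (g : V k ≃ₗ[ℂ] V k) : V (k + 1) ≃ₗ[ℂ] V (k + 1) :=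
  ((pairL k).symm.trans (LinearEquiv.prodCongr g g)).trans (pairL k)

theorem dbl_pair (g : V k ≃ₗ[ℂ] V k) (a b : V k) : dbl g (pair a b) = pair (g a) (g b) := by
  show pair (g (lo (pair a b))) (g (hi (pair a b))) = _
  rw [lo_pair, hi_pair]

/-- `(a, b) ↦ (b, a)`. -/
def sw (k : ℕ) : V (k + 1) ≃ₗ[ℂ] V (k + 1) :=
  ((pairL k).symm.trans (LinearEquiv.prodComm ℂ (V k) (V k))).trans (pairL k)

theorem sw_apply (x : V (k + 1)) : sw k x = pair (hi x) (lo x) := rfl

@[simp] theorem sw_pair (a b : V k) : sw k (pair a b) = pair b a := by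
  rw [sw_apply, lo_pair, hi_pair]

/-- `(a, b) ↦ (a, -b)`. -/
def sgn (k : ℕ) : V (k + 1) ≃ₗ[ℂ] V (k + 1) :=
  ((pairL k).symm.trans (LinearEquiv.prodCongr (LinearEquiv.refl ℂ (V k))
    (LinearEquiv.neg ℂ))).trans (pairL k)

theorem sgn_apply (x : V (k + 1)) : sgn k x = pair (lo x) (-hi x) := rfl

@[simp] theorem sgn_pair (a b : V k) : sgn k (pair a b) = pair a (-b) := by
  rw [sgn_apply, lo_pair, hi_pair]

theorem dbl_mem {g : V k ≃ₗ[ℂ] V k} (hg : g ∈ Aut k) : dbl g ∈ Aut (k + 1) := by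
  refine ⟨fun x y => ?_, fun x hx => ?_⟩
  · rw [← pair_lo_hi x, ← pair_lo_hi y, dbl_pair, dbl_pair, ip_pair, ip_pair, hg.1, hg.1]
  · rw [← pair_lo_hi x] at hx ⊢
    obtain ⟨ha, e, he, hbe⟩ := (L_succ _ _).mp hx
    obtain ⟨p, hp, hp'⟩ := hg.2 _ ha
    obtain ⟨q, hq, hq'⟩ := hg.2 _ he
    rw [dbl_pair]
    refine ⟨pair p (p + φ • q), (L_succ _ _).mpr ⟨hp, q, hq, by abel⟩, ?_⟩
    rw [pair_sub, pair_smul, ← hp']
    congr 1
    rw [smul_add, ← hp', ← hq', smul_sub, ← map_smul, ← hbe, map_sub]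
    abel

theorem sw_mem : sw k ∈ Aut (k + 1) := by
  refine ⟨fun x y => ?_, fun x hx => ?_⟩
  · rw [sw_apply, sw_apply, ip_pair, ip_split x y, add_comm]
  · rw [← pair_lo_hi x] at hx ⊢
    obtain ⟨ha, e, he, hbe⟩ := (L_succ _ _).mp hx
    have h2 : e + φ • (-((starRingEnd ℂ) φ • e)) = -e := by
      rw [smul_neg, ← two_smul_eq]; abel
    refine ⟨pair e (e + φ • (-((starRingEnd ℂ) φ • e))), (L_succ _ _).mpr ⟨he, _,
      L_neg (L_conjφ he), add_sub_cancel_left _ _⟩, ?_⟩
    rw [sw_pair, pair_sub, pair_smul, h2, smul_neg, ← hbe, neg_sub]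

theorem sgn_mem : sgn k ∈ Aut (k + 1) := by
  refine ⟨fun x y => ?_, fun x hx => ?_⟩
  · rw [sgn_apply, sgn_apply, ip_pair, ip_split x y, ip_neg_left, ip_neg_right, neg_neg]
  · rw [← pair_lo_hi x] at hx ⊢
    obtain ⟨ha, e, he, hbe⟩ := (L_succ _ _).mp hx
    have hb : hi x ∈ L k := by
      have : hi x = lo x + φ • e := by rw [← hbe]; abel
      rw [this]; exact L_add ha (L_φ he)
    refine ⟨pair 0 (0 + φ • (I • hi x)), (L_succ _ _).mpr ⟨L_zero, _, L_I hb,
      add_sub_cancel_left _ _⟩, ?_⟩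
    rw [sgn_pair, pair_sub, pair_smul, smul_zero, sub_self]
    congr 1
    rw [zero_add, smul_smul, smul_smul, φ_sq, mul_assoc, I_mul_I]
    funext s
    simp
    ring

/-- Two anticommuting automorphisms. -/
theorem exists_anti (hk : 1 ≤ k) : ∃ g ∈ Aut k, ∃ h ∈ Aut k, ∀ x, g (h x) = -(h (g x)) := by
  obtain ⟨k, rfl⟩ : ∃ j, k = j + 1 := ⟨k - 1, by omega⟩
  refine ⟨sw k, sw_mem, sgn k, sgn_mem, fun x => ?_⟩
  rw [← pair_lo_hi x, sgn_pair, sw_pair, sw_pair, sgn_pair, pair_neg, neg_neg]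

/-! ### Orbits span -/

/-- The real span of the orbit. -/
noncomputable def orb (x : V k) : Submodule ℝ (V k) := Submodule.span ℝ {y | ∃ g ∈ Aut k, y = g x}

theorem mem_orb_self (x : V k) : x ∈ orb x :=
  Submodule.subset_span ⟨_, Aut_one, rfl⟩

theorem orb_closed {x y : V k} (hy : y ∈ orb x) {h : V k ≃ₗ[ℂ] V k} (hh : h ∈ Aut k) :
    h y ∈ orb x := by
  unfold orb at hy
  induction hy using Submodule.span_induction with
  | mem y hy =>
    obtain ⟨g, hg, rfl⟩ := hy
    exact Submodule.subset_span ⟨_, Aut_trans hh hg, rfl⟩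
  | zero => rw [map_zero]; exact Submodule.zero_mem _
  | add a b _ _ ha hb => rw [map_add]; exact Submodule.add_mem _ ha hb
  | smul r a _ ha =>
    have : h (r • a) = r • h a := by
      rw [← Complex.coe_smul, map_smul, Complex.coe_smul]
    rw [this]; exact Submodule.smul_mem _ _ ha

theorem orb_top : ∀ (k : ℕ) (x : V k), x ∈ X k → orb x = ⊤ := by
  intro k
  induction k with
  | zero =>
    intro x hx
    rw [eq_top_iff]
    intro z _
    have hx0 : x default ≠ 0 := by
      intro h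
      apply X_ne_zero hx
      funext s
      rw [Subsingleton.elim s default, h]; rfl
    have h1 : z = (z default / x default).re • x + (z default / x default).im • (I • x) := by
      funext s
      rw [Subsingleton.elim s default]
      simp only [Pi.add_apply, Pi.smul_apply, Complex.real_smul, smul_eq_mul]
      rw [← mul_assoc, ← add_mul, Complex.re_add_im, div_mul_cancel₀ _ hx0]
    rw [h1]
    exact Submodule.add_mem _ (Submodule.smul_mem _ _ (mem_orb_self x))
      (Submodule.smul_mem _ _ (orb_closed (mem_orb_self x) mulI_mem))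
  | succ k ih =>
    intro x hx
    rw [← pair_lo_hi x] at hx ⊢
    set a := lo x
    set b := hi x
    -- it suffices to have one vector `(c u, 0)` with `u` minimal
    have key : ∀ (c : ℂ), c ≠ 0 → ∀ u ∈ X k, pair (c • u) 0 ∈ orb (pair a b) →
        orb (pair a b) = ⊤ := by
      intro c hc u hu hmem
      have h1 : ∀ z : V k, pair (c • z) 0 ∈ orb (pair a b) := by
        intro z
        have hz : z ∈ orb u := by rw [ih u hu]; trivial
        unfold orb at hz
        induction hz using Submodule.span_induction with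
        | mem y hy =>
          obtain ⟨g, hg, rfl⟩ := hy
          have := orb_closed hmem (dbl_mem hg)
          rwa [dbl_pair, map_zero, map_smul] at this
        | zero => rw [smul_zero, pair_zero]; exact Submodule.zero_mem _
        | add p q _ _ hp hq =>
          have := Submodule.add_mem _ hp hq
          rwa [pair_add, add_zero, ← smul_add] at this
        | smul r p _ hp =>
          have := Submodule.smul_mem _ r hp
          rwa [pair_rsmul, smul_zero, smul_comm] at this
      have h2 : ∀ z : V k, pair z 0 ∈ orb (pair a b) := by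
        intro z
        have := h1 (c⁻¹ • z)
        rwa [smul_smul, mul_inv_cancel₀ hc, one_smul] at this
      rw [eq_top_iff]
      intro y _
      have h3 := orb_closed (h2 (hi y)) sw_mem
      rw [sw_pair] at h3
      have h4 := Submodule.add_mem _ (h2 (lo y)) h3
      rw [pair_add, add_zero, zero_add, pair_lo_hi y] at h4
      exact h4
    rcases (X_succ a b).mp hx with ⟨y, hy, h1, h2⟩ | ⟨y, hy, h1, h2⟩ | ⟨ha, hb, hab⟩
    · refine key φ φ_ne y hy ?_
      have := mem_orb_self (pair a b)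
      rwa [h1, h2] at this ⊢
    · refine key φ φ_ne y hy ?_
      have := orb_closed (mem_orb_self (pair a b)) sw_mem
      rw [sw_pair] at this
      rw [h1, h2] at this ⊢
      exact this
    · refine key 2 two_ne_zero a ha ?_
      have h1 := orb_closed (mem_orb_self (pair a b)) sgn_mem
      have h2 := Submodule.add_mem _ (mem_orb_self (pair a b)) h1
      rw [sgn_pair, pair_add, add_neg_cancel, ← two_smul ℂ a] at h2
      exact h2

theorem span_class {x : V k} (hx : x ∈ X k) :
    Submodule.span ℝ {y | y ∈ X k ∧ Cong y x} = ⊤ := by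
  rw [eq_top_iff, ← orb_top k x hx]
  refine Submodule.span_mono ?_
  rintro y ⟨g, hg, rfl⟩
  exact ⟨Aut_X hg hx, hg.2 x hx.1⟩

theorem eq_zero_of_class {x z : V k} (hx : x ∈ X k) (h : ∀ y ∈ X k, Cong y x → ip y z = 0) :
    z = 0 := by
  apply ip_self_eq_zero
  have hz : ∀ y ∈ Submodule.span ℝ {y | y ∈ X k ∧ Cong y x}, ip y z = 0 := by
    intro y hy
    induction hy using Submodule.span_induction with
    | mem y hy => exact h y hy.1 hy.2
    | zero => rw [ip_zero_left]
    | add a b _ _ ha hb => rw [ip_add_left, ha, hb, add_zero]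
    | smul r a _ ha => rw [ip_smul_left, ha, mul_zero]
  exact hz z (by rw [span_class hx]; trivial)

/-- There are minimal vectors. -/
theorem X_nonempty : ∀ k : ℕ, (X k).Nonempty := by
  intro k
  induction k with
  | zero =>
    refine ⟨fun _ => 1, ⟨fun _ => 1, fun s => by simp⟩, ?_⟩
    simp [ip]
  | succ k ih =>
    obtain ⟨x, hx⟩ := ih
    exact ⟨_, X_φl hx⟩

theorem bilin_zero (P Q : V k →ₗ[ℝ] V k)
    (h : ∀ u ∈ X k, ∀ w ∈ X k, Cong w u → ip (P u) w + ip u (Q w) = 0) (a d : V k) :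
    ip (P a) d + ip a (Q d) = 0 := by
  have h1 : ∀ u ∈ X k, ∀ d : V k, ip (P u) d + ip u (Q d) = 0 := by
    intro u hu d
    have hd : d ∈ Submodule.span ℝ {y | y ∈ X k ∧ Cong y u} := by rw [span_class hu]; trivial
    induction hd using Submodule.span_induction with
    | mem y hy => exact h u hu y hy.1 hy.2
    | zero => simp
    | add a b _ _ ha hb => rw [map_add, ip_add_right, ip_add_right]; linarith
    | smul r a _ ha => rw [map_smul, ip_smul_right, ip_smul_right, ← mul_add, ha, mul_zero]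
  obtain ⟨x, hx⟩ := X_nonempty k
  have ha : a ∈ Submodule.span ℝ {y | y ∈ X k ∧ Cong y x} := by rw [span_class hx]; trivial
  induction ha using Submodule.span_induction with
  | mem y hy => exact h1 y hy.1 d
  | zero => simp
  | add a b _ _ ha hb => rw [map_add, ip_add_left, ip_add_left]; linarith
  | smul r a _ ha => rw [map_smul, ip_smul_left, ip_smul_left, ← mul_add, ha, mul_zero]

end Pool.Agent.Q141.BW
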