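import Pool.Agent.Q141.BW.Step

/-!
# The base case: the root system `D_4` is rigid to the first order
-/

set_option autoImplicit false

open Complex

namespace Pool.Agent.Q141.BW

theorem I_I {k : ℕ} (x : V k) : I • (I • x) = -x := by
  rw [smul_smul, I_mul_I, neg_smul, one_smul]

theorem ip_II {k : ℕ} (x y : V k) : ip (I • x) (I • y) = ip x y := by
  rw [ip_I_left, I_I, ip_neg_right, neg_neg]

theorem int_unit (m n : ℤ) (h : m * m + n * n = 1) :
    (m = 1 ∧ n = 0) ∨ (m = -1 ∧ n = 0) ∨ (m = 0 ∧ n = 1) ∨ (m = 0 ∧ n = -1) := by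
  have a1 : -1 ≤ m := by nlinarith
  have a2 : m ≤ 1 := by nlinarith
  have b1 : -1 ≤ n := by nlinarith
  have b2 : n ≤ 1 := by nlinarith
  interval_cases m <;> interval_cases n <;> simp_all

/-- The point. -/
def pt0 : Fin 0 → Fin 2 := ![]

theorem unit0 (z : V 0) (hz : z ∈ X 0) :
    z pt0 = 1 ∨ z pt0 = -1 ∨ z pt0 = I ∨ z pt0 = -I := by
  obtain ⟨⟨c, hc⟩, hz⟩ := hz
  have h1 : z pt0 = (c pt0 : ℂ) := by
    rw [hc pt0, Fintype.sum_subsingleton _ pt0, Finset.univ_eq_empty, Finset.prod_empty, mul_one]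
  have h3 : ((c pt0).norm : ℝ) = 1 := by
    have h4 : ((c pt0).norm : ℝ) = Complex.normSq (c pt0 : ℂ) :=
      GaussianInt.intCast_real_norm _
    rw [h4, Complex.normSq_apply, ← h1]
    unfold ip at hz
    rw [Fintype.sum_subsingleton _ pt0, pow_zero] at hz
    exact hz
  have h4 : (c pt0).norm = 1 := by exact_mod_cast h3
  rw [Zsqrtd.norm_def] at h4
  have hmn := int_unit (c pt0).re (c pt0).im (by linarith)
  rw [h1, GaussianInt.toComplex_def]
  rcases hmn with ⟨h6, h7⟩ | ⟨h6, h7⟩ | ⟨h6, h7⟩ | ⟨h6, h7⟩ <;> rw [h6, h7] <;> simp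

theorem X0_cases {x y : V 0} (hx : x ∈ X 0) (hy : y ∈ X 0) :
    y = x ∨ y = I • x ∨ y = -x ∨ y = -(I • x) := by
  have ext : ∀ z w : V 0, z pt0 = w pt0 → z = w := by
    intro z w h
    funext s
    rw [Subsingleton.elim s pt0, h]
  have h1 := unit0 x hx
  have h2 := unit0 y hy
  rcases h1 with h1 | h1 | h1 | h1 <;> rcases h2 with h2 | h2 | h2 | h2
  all_goals first
    | (left; apply ext; rw [h1, h2]; done)
    | (right; left; apply ext; simp [h1, h2]; done)
    | (right; right; left; apply ext; simp [h1, h2]; done)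
    | (right; right; right; apply ext; simp [h1, h2]; done)

theorem X0_cong {x y : V 0} (hx : x ∈ X 0) (hy : y ∈ X 0) : Cong y x := by
  rcases X0_cases hx hy with h | h | h | h
  · rw [h]; exact Cong.refl x
  · rw [h]; exact cong_I hx.1
  · rw [h]; exact (cong_neg hx.1).symm
  · rw [h]; exact ((cong_neg (L_I hx.1)).symm).trans (cong_I hx.1)

theorem X0_zero {x z : V 0} (hx : x ∈ X 0) (h1 : ip x z = 0) (h2 : ip (I • x) z = 0) : z = 0 := by
  refine eq_zero_of_class hx fun y hy _ => ?_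
  rcases X0_cases hx hy with h | h | h | h
  · rw [h, h1]
  · rw [h, h2]
  · rw [h, ip_neg_left, h1, neg_zero]
  · rw [h, ip_neg_left, h2, neg_zero]

theorem X0_norm {x : V 0} (hx : x ∈ X 0) : ip x x = 1 := by rw [hx.2, pow_zero]

theorem φI_smul {k : ℕ} (x : V k) : φ • (I • x) = I • x - x := by
  rw [φ_smul, I_I]; abel

/-- The rotation part. -/
noncomputable def rr (a : V 0 → ℝ) (u : V 0) : V 0 :=
  (1 / 2 : ℝ) • (a u • (φ • u) + a (I • u) • (φ • (I • u)))

section

variable {v : V 1 → V 1}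

theorem partF (h : Cond 1 v) : ∃ (a : V 0 → ℝ) (R : V 0 → V 0),
    (∀ x ∈ X 0, lo (v (pair (φ • x) 0)) = -(a x • x) + a x • (I • x)) ∧
    (∀ x ∈ X 0, a (-x) = a x) ∧
    ∀ u ∈ X 0, ∀ w ∈ X 0, lo (v (pair u w)) = R w + rr a u := by
  set a : V 0 → ℝ := fun x => ip (I • x) (lo (v (pair (φ • x) 0))) with ha
  have hp : ∀ x ∈ X 0, ip x (lo (v (pair (φ • x) 0))) = -a x := by
    intro x hx
    have h1 := h.tan _ (X_φl hx)
    rw [ip_pair_left, ip_zero_left, add_zero] at h1
    nth_rewrite 1 [φ_smul] at h1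
    rw [ip_add_left] at h1
    simp only [ha]
    linarith
  have hp2 : ∀ x ∈ X 0, lo (v (pair (φ • x) 0)) = -(a x • x) + a x • (I • x) := by
    intro x hx
    rw [← sub_eq_zero]
    apply X0_zero hx
    · rw [ip_sub_right, ip_add_right, ip_neg_right, ip_smul_right, ip_smul_right, ip_I,
        X0_norm hx, hp x hx]
      ring
    · rw [ip_sub_right, ip_add_right, ip_neg_right, ip_smul_right, ip_smul_right, ip_comm (I • x) x,
        ip_I, ip_II, X0_norm hx]
      simp only [ha]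
      ring
  have hd : ∀ x ∈ X 0, ∀ w ∈ X 0, lo (v (pair (I • x) w)) =
      lo (v (pair x w)) - a x • (φ • x) := by
    intro x hx w hw
    have hI := X_I hx
    have t1 := h.tan _ (X_pair hx hw (X0_cong hw hx))
    have t2 := h.tan _ (X_pair hI hw (X0_cong hw hI))
    have e1 := h.con _ (X_pair hx hw (X0_cong hw hx)) _ (X_φl hx) (by
      rw [ip_pair, ip_zero_right, ip_φ_self, X0_norm hx]; norm_num)
    have e2 := h.con _ (X_pair hI hw (X0_cong hw hI)) _ (X_φl hx) (by
      rw [ip_pair, ip_zero_right, φ_smul, ip_add_right, ip_comm (I • x) x, ip_I, ip_II,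
        X0_norm hx]; norm_num)
    have e3 := h.con _ (X_pair hx hw (X0_cong hw hx)) _ (X_pair hI hw (X0_cong hw hI)) (by
      rw [ip_pair, ip_I, X0_norm hw]; norm_num)
    simp only [ip_pair_left, ip_zero_left, add_zero] at t1 t2 e1 e2 e3
    have h3 := hp x hx
    have h4 : ip (I • x) (lo (v (pair (φ • x) 0))) = a x := rfl
    rw [h3] at e1
    rw [h4] at e2
    nth_rewrite 2 [φ_smul] at e1
    nth_rewrite 2 [φ_smul] at e2
    rw [ip_add_left] at e1 e2
    rw [← sub_eq_zero]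
    apply X0_zero hx
    · rw [ip_sub_right, ip_sub_right, ip_smul_right, ip_φ_self, X0_norm hx]
      linarith
    · rw [ip_sub_right, ip_sub_right, ip_smul_right, φ_smul, ip_add_right, ip_comm (I • x) x,
        ip_I, ip_II, X0_norm hx]
      linarith
  obtain ⟨x₀, hx₀⟩ := X_nonempty 0
  have hneg : ∀ x ∈ X 0, a (-x) = a x := by
    intro x hx
    have h1 := hd x hx x₀ hx₀
    have h2 := hd _ (X_I hx) x₀ hx₀
    have h3 := hd _ (X_neg hx) x₀ hx₀
    have h4 := hd _ (X_neg (X_I hx)) x₀ hx₀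
    rw [I_I] at h2
    rw [smul_neg] at h3
    rw [smul_neg, I_I, neg_neg] at h4
    have h5 : a x • (φ • x) + a (I • x) • (φ • (I • x)) + a (-x) • (φ • (-x)) +
        a (-(I • x)) • (φ • (-(I • x))) = 0 := by
      have e1 : a x • (φ • x) = lo (v (pair x x₀)) - lo (v (pair (I • x) x₀)) := by rw [h1]; abel
      have e2 : a (I • x) • (φ • (I • x)) = lo (v (pair (I • x) x₀)) - lo (v (pair (-x) x₀)) := by
        rw [h2]; abel
      have e3 : a (-x) • (φ • (-x)) = lo (v (pair (-x) x₀)) - lo (v (pair (-(I • x)) x₀)) := by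
        rw [h3]; abel
      have e4 : a (-(I • x)) • (φ • (-(I • x))) =
          lo (v (pair (-(I • x)) x₀)) - lo (v (pair x x₀)) := by rw [h4]; abel
      rw [e1, e2, e3, e4]; abel
    have h6 := congrArg (fun z => ip (φ • x) z) h5
    simp only [ip_add_right, ip_smul_right, smul_neg, ip_neg_right, ip_φ, ip_I, X0_norm hx,
      ip_zero_right] at h6
    linarith
  have hr : ∀ x ∈ X 0, ∀ w, lo (v (pair (I • x) w)) = lo (v (pair x w)) - a x • (φ • x) →
      lo (v (pair (I • x) w)) - rr a (I • x) = lo (v (pair x w)) - rr a x := by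
    intro x hx w hw
    unfold rr
    rw [hw, I_I, hneg x hx, smul_neg, smul_neg]
    module
  refine ⟨a, fun w => lo (v (pair x₀ w)) - rr a x₀, hp2, hneg, fun u hu w hw => ?_⟩
  have h1 := hr x₀ hx₀ w (hd _ hx₀ w hw)
  have h2 := hr _ (X_I hx₀) w (hd _ (X_I hx₀) w hw)
  have h3 := hr _ (X_neg hx₀) w (hd _ (X_neg hx₀) w hw)
  rw [I_I] at h2
  rw [smul_neg] at h3
  have h4 : lo (v (pair u w)) - rr a u = lo (v (pair x₀ w)) - rr a x₀ := by
    rcases X0_cases hx₀ hu with h | h | h | h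
    · rw [h]
    · rw [h, h1]
    · rw [h, h2, h1]
    · rw [h, h3, h2, h1]
  show _ = lo (v (pair x₀ w)) - rr a x₀ + rr a u
  rw [← h4]; abel

end

/-- The base case. -/
theorem base : Inf 1 := by
  intro v h
  obtain ⟨a, R, hp, ha, hF⟩ := partF h
  obtain ⟨b, S, hq, hb, hG⟩ := partF h.swap
  have hq' : ∀ x ∈ X 0, hi (v (pair 0 (φ • x))) = -(b x • x) + b x • (I • x) := by
    intro x hx
    have := hq x hx
    rwa [sw_pair, sw_apply, lo_pair] at this
  have hG' : ∀ u ∈ X 0, ∀ w ∈ X 0, hi (v (pair u w)) = S u + rr b w := by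
    intro u hu w hw
    have := hG w hw u hu
    rwa [sw_pair, sw_apply, lo_pair] at this
  have hrr : ∀ (c : V 0 → ℝ), ∀ x ∈ X 0, ip (φ • x) (rr c x) = c x := by
    intro c x hx
    unfold rr
    rw [ip_smul_right, ip_add_right, ip_smul_right, ip_smul_right, ip_φ, ip_φ, ip_I, X0_norm hx]
    ring
  have hrx : ∀ (c : V 0 → ℝ), ∀ x ∈ X 0, ip x (rr c x) = (c x - c (I • x)) / 2 := by
    intro c x hx
    unfold rr
    rw [ip_smul_right, ip_add_right, ip_smul_right, ip_smul_right, ip_φ_self, φI_smul,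
      ip_sub_right, ip_I, X0_norm hx]
    ring
  -- the two mixed relations
  have E1 : ∀ x ∈ X 0, ∀ w ∈ X 0, ip w (hi (v (pair (φ • x) 0))) + ip (φ • x) (R w) = 0 := by
    intro x hx w hw
    have e1 := h.con _ (X_pair hx hw (X0_cong hw hx)) _ (X_φl hx) (by
      rw [ip_pair, ip_zero_right, ip_φ_self, X0_norm hx]; norm_num)
    rw [ip_pair_left, ip_pair_left, hp x hx, hF x hx w hw, ip_zero_left, add_zero, ip_add_right,
      ip_neg_right, ip_smul_right, ip_smul_right, ip_I, X0_norm hx, ip_add_right, hrr a x hx] at e1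
    linarith
  have E2 : ∀ x ∈ X 0, ∀ u ∈ X 0, ip u (lo (v (pair 0 (φ • x)))) + ip (φ • x) (S u) = 0 := by
    intro x hx u hu
    have e1 := h.con _ (X_pair hu hx (X0_cong hx hu)) _ (X_φr hx) (by
      rw [ip_pair, ip_zero_right, ip_φ_self, X0_norm hx]; norm_num)
    rw [ip_pair_left, ip_pair_left, hq' x hx, hG' u hu x hx, ip_zero_left, zero_add, ip_add_right,
      ip_neg_right, ip_smul_right, ip_smul_right, ip_I, X0_norm hx, ip_add_right, hrr b x hx] at e1
    linarith
  have hodd : ∀ (B : V 0 → V 0) (R : V 0 → V 0), (∀ x ∈ X 0, ∀ w ∈ X 0,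
      ip w (B x) + ip (φ • x) (R w) = 0) → ∀ w ∈ X 0, R (-w) = -R w := by
    intro B R hE w hw
    rw [← sub_eq_zero, sub_neg_eq_add]
    have h1 : ∀ x ∈ X 0, ip (φ • x) (R (-w) + R w) = 0 := by
      intro x hx
      have e1 := hE x hx w hw
      have e2 := hE x hx (-w) (X_neg hw)
      rw [ip_neg_left] at e2
      rw [ip_add_right]
      linarith
    have e1 := h1 w hw
    have e2 := h1 _ (X_I hw)
    rw [φ_smul, ip_add_left] at e1
    rw [φI_smul, ip_sub_left] at e2
    exact X0_zero hw (by linarith) (by linarith)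
  have hRodd := hodd (fun x => hi (v (pair (φ • x) 0))) R E1
  have hSodd := hodd (fun x => lo (v (pair 0 (φ • x)))) S E2
  have tan : ∀ u ∈ X 0, ∀ w ∈ X 0, ip u (R w) + ip w (S u) +
      (a u - a (I • u)) / 2 + (b w - b (I • w)) / 2 = 0 := by
    intro u hu w hw
    have t := h.tan _ (X_pair hu hw (X0_cong hw hu))
    rw [ip_pair_left, hF u hu w hw, hG' u hu w hw, ip_add_right, ip_add_right, hrx a u hu,
      hrx b w hw] at t
    linarith
  have hsum : ∀ u ∈ X 0, ∀ w ∈ X 0, (a u - a (I • u)) / 2 + (b w - b (I • w)) / 2 = 0 := by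
    intro u hu w hw
    have t1 := tan u hu w hw
    have t2 := tan (-u) (X_neg hu) w hw
    rw [hSodd u hu, ip_neg_left, ip_neg_right, smul_neg, ha u hu, ha _ (X_I hu)] at t2
    linarith
  obtain ⟨x₀, hx₀⟩ := X_nonempty 0
  have hac : ∀ u ∈ X 0, a (I • u) = a u := by
    intro u hu
    have t1 := hsum u hu x₀ hx₀
    have t2 := hsum _ (X_I hu) x₀ hx₀
    rw [I_I, ha u hu] at t2
    linarith
  have hbc : ∀ u ∈ X 0, b (I • u) = b u := by
    intro u hu
    have t1 := hsum x₀ hx₀ u hu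
    have t2 := hsum x₀ hx₀ _ (X_I hu)
    rw [I_I, hb u hu] at t2
    linarith
  have E3 : ∀ u ∈ X 0, ∀ w ∈ X 0, ip u (R w) + ip w (S u) = 0 := by
    intro u hu w hw
    have t1 := tan u hu w hw
    have t2 := hsum u hu w hw
    linarith
  have hconst : ∀ c : V 0 → ℝ, (∀ u ∈ X 0, c (-u) = c u) → (∀ u ∈ X 0, c (I • u) = c u) →
      ∀ u ∈ X 0, c u = c x₀ := by
    intro c h1 h2 u hu
    rcases X0_cases hx₀ hu with h | h | h | h
    · rw [h]
    · rw [h, h2 x₀ hx₀]
    · rw [h, h1 x₀ hx₀]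
    · rw [h, h1 _ (X_I hx₀), h2 x₀ hx₀]
  have ha0 := hconst a ha hac
  have hb0 := hconst b hb hbc
  -- linear extensions
  have ext : ∀ Q : V 0 → V 0, (∀ w ∈ X 0, Q (-w) = -Q w) →
      ∃ T : V 0 →ₗ[ℝ] V 0, ∀ w ∈ X 0, Q w = T w := by
    intro Q hQ
    refine ⟨{ toFun := fun z => ip x₀ z • Q x₀ + ip (I • x₀) z • Q (I • x₀)
              map_add' := fun z w => by
                rw [ip_add_right, ip_add_right]; module
              map_smul' := fun r z => by
                rw [ip_smul_right, ip_smul_right, RingHom.id_apply]; module }, fun w hw => ?_⟩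
    show _ = ip x₀ w • Q x₀ + ip (I • x₀) w • Q (I • x₀)
    rcases X0_cases hx₀ hw with h | h | h | h
    · rw [h, X0_norm hx₀, ip_comm (I • x₀), ip_I]; simp
    · rw [h, ip_I, ip_II, X0_norm hx₀]; simp
    · rw [h, hQ x₀ hx₀, ip_neg_right, ip_neg_right, X0_norm hx₀, ip_comm (I • x₀), ip_I]; simp
    · rw [h, hQ _ (X_I hx₀), ip_neg_right, ip_neg_right, ip_I, ip_II, X0_norm hx₀]; simp
  obtain ⟨T, hT⟩ := ext R hRodd
  obtain ⟨T', hT'⟩ := ext S hSodd
  have hQ : ∀ p d : V 0, ip (T' p) d + ip p (T d) = 0 := by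
    refine bilin_zero T' T fun u hu w hw _ => ?_
    rw [← hT' u hu, ← hT w hw, ip_comm (S u), add_comm]
    exact E3 u hu w hw
  let J : V 0 →ₗ[ℝ] V 0 := (mulI 0).toLinearMap.restrictScalars ℝ
  have hJ : ∀ z, J z = I • z := fun z => rfl
  have hrr' : ∀ c : V 0 → ℝ, (∀ u ∈ X 0, c (I • u) = c u) → (∀ u ∈ X 0, c u = c x₀) →
      ∀ u ∈ X 0, rr c u = c x₀ • (I • u) := by
    intro c h1 h2 u hu
    unfold rr
    rw [h1 u hu, h2 u hu, φI_smul, φ_smul]
    module
  refine ⟨blk (a x₀ • J) T T' (b x₀ • J), fun p d => ?_, fun x hx => ?_⟩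
  · rw [blk_apply, blk_apply, ip_pair_left, ip_comm p, ip_pair_left]
    simp only [LinearMap.smul_apply, hJ, ip_add_left, ip_smul_left]
    have h1 := hQ (lo p) (hi d)
    have h2 := hQ (lo d) (hi p)
    rw [ip_comm (lo d)] at h2
    rw [ip_comm (lo p)] at h1
    rw [ip_I_left (lo p), ip_I_left (hi p), ip_comm (lo p), ip_comm (hi p)]
    linarith
  · rw [← pair_lo_hi x] at hx ⊢
    set p := lo x
    set d := hi x
    rw [blk_pair]
    simp only [LinearMap.smul_apply, hJ]
    rcases (X_succ p d).mp hx with ⟨y, hy, h1, h2⟩ | ⟨y, hy, h1, h2⟩ | ⟨hp', hd', hab⟩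
    · rw [h1, h2, map_zero, smul_zero, smul_zero, add_zero, add_zero,
        ← pair_lo_hi (v (pair (φ • y) 0)), hp y hy, ha0 y hy]
      congr 1
      · rw [smul_comm I φ, φI_smul]
        module
      · rw [← sub_eq_zero]
        refine eq_zero_of_class hy fun w hw _ => ?_
        have h3 := E1 y hy w hw
        have h4 := hQ (φ • y) w
        rw [hT w hw] at h3
        rw [ip_sub_right, ip_comm w (T' _)]
        linarith
    · rw [h1, h2, map_zero, smul_zero, smul_zero, zero_add, zero_add,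
        ← pair_lo_hi (v (pair 0 (φ • y))), hq' y hy, hb0 y hy]
      congr 1
      · rw [← sub_eq_zero]
        refine eq_zero_of_class hy fun w hw _ => ?_
        have h3 := E2 y hy w hw
        have h4 := hQ w (φ • y)
        rw [hT' w hw] at h3
        rw [ip_comm (T' w)] at h4
        rw [ip_sub_right]
        linarith
      · rw [smul_comm I φ, φI_smul]
        module
    · rw [← pair_lo_hi (v (pair p d)), hF p hp' d hd', hG' p hp' d hd', hrr' a hac ha0 p hp',
        hrr' b hbc hb0 d hd', hT d hd', hT' p hp']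
      congr 1
      abel

theorem inf_all (k : ℕ) (hk : 1 ≤ k) : Inf k := by
  induction k, hk using Nat.le_induction with
  | base => exact base
  | succ k hk ih => exact step hk ih

end Pool.Agent.Q141.BW
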