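import Mathlib

/-!
# Barnes-Wall lattices: recursive structure
-/

set_option autoImplicit false

open Complex

namespace Pool.Agent.Q141.BW

/-- Complex vectors with coordinates indexed by the bit strings of length `k`. -/
abbrev V (k : ℕ) := (Fin k → Fin 2) → ℂ

/-- The real inner product. -/
def ip {k : ℕ} (x y : V k) : ℝ := ∑ s, ((x s).re * (y s).re + (x s).im * (y s).im)

section ip
variable {k : ℕ}

theorem ip_comm (x y : V k) : ip x y = ip y x := by
  unfold ip; exact Finset.sum_congr rfl fun s _ => by ring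

theorem ip_add_left (x y z : V k) : ip (x + y) z = ip x z + ip y z := by
  unfold ip; rw [← Finset.sum_add_distrib]
  exact Finset.sum_congr rfl fun s _ => by simp; ring

theorem ip_add_right (x y z : V k) : ip x (y + z) = ip x y + ip x z := by
  rw [ip_comm, ip_add_left, ip_comm y, ip_comm z]

theorem ip_smul_left (a : ℝ) (x y : V k) : ip (a • x) y = a * ip x y := by
  unfold ip; rw [Finset.mul_sum]
  exact Finset.sum_congr rfl fun s _ => by simp; ring

theorem ip_smul_right (a : ℝ) (x y : V k) : ip x (a • y) = a * ip x y := by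
  rw [ip_comm, ip_smul_left, ip_comm]

theorem ip_neg_left (x y : V k) : ip (-x) y = -ip x y := by
  unfold ip; rw [← Finset.sum_neg_distrib]
  exact Finset.sum_congr rfl fun s _ => by simp; ring

theorem ip_neg_right (x y : V k) : ip x (-y) = -ip x y := by
  rw [ip_comm, ip_neg_left, ip_comm]

theorem ip_sub_left (x y z : V k) : ip (x - y) z = ip x z - ip y z := by
  rw [sub_eq_add_neg, ip_add_left, ip_neg_left, sub_eq_add_neg]

theorem ip_sub_right (x y z : V k) : ip x (y - z) = ip x y - ip x z := by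
  rw [sub_eq_add_neg, ip_add_right, ip_neg_right, sub_eq_add_neg]

@[simp] theorem ip_zero_left (y : V k) : ip 0 y = 0 := by simp [ip]

@[simp] theorem ip_zero_right (y : V k) : ip y 0 = 0 := by simp [ip]

theorem ip_self_nonneg (x : V k) : 0 ≤ ip x x :=
  Finset.sum_nonneg fun _ _ => add_nonneg (mul_self_nonneg _) (mul_self_nonneg _)

theorem ip_self_eq_zero {x : V k} (h : ip x x = 0) : x = 0 := by
  unfold ip at h
  rw [Finset.sum_eq_zero_iff_of_nonneg
    (fun _ _ => add_nonneg (mul_self_nonneg _) (mul_self_nonneg _))] at h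
  funext s
  have h1 := h s (Finset.mem_univ s)
  apply Complex.ext
  · simp only [Pi.zero_apply, Complex.zero_re]; nlinarith [sq_nonneg (x s).re, sq_nonneg (x s).im]
  · simp only [Pi.zero_apply, Complex.zero_im]; nlinarith [sq_nonneg (x s).re, sq_nonneg (x s).im]

/-- Multiplication by a complex number and its conjugate are adjoint. -/
theorem ip_csmul_left (a : ℂ) (x y : V k) : ip (a • x) y = ip x ((starRingEnd ℂ) a • y) := by
  unfold ip
  exact Finset.sum_congr rfl fun s _ => by simp; ring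

theorem ip_I (x : V k) : ip x (I • x) = 0 := by
  unfold ip
  exact Finset.sum_eq_zero fun s _ => by simp; ring

theorem ip_I_left (x y : V k) : ip (I • x) y = - ip x (I • y) := by
  rw [ip_csmul_left, conj_I, neg_smul, ip_neg_right]

end ip

/-- The number `1 + i`. -/
def φ : ℂ := 1 + I

theorem φ_smul {k : ℕ} (x : V k) : φ • x = x + I • x := by
  unfold φ; rw [add_smul, one_smul]

theorem φ_ne : φ ≠ 0 := by
  intro h
  have := congrArg Complex.re h
  simp [φ] at this

theorem conjφ_mul : (starRingEnd ℂ) φ * φ = 2 := by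
  simp only [φ, map_add, map_one, conj_I]
  linear_combination -I_mul_I

theorem φ_sq : φ * φ = 2 * I := by
  unfold φ; linear_combination I_mul_I

theorem conjφ : (starRingEnd ℂ) φ = 1 - I := by
  simp only [φ, map_add, map_one, conj_I]; ring

theorem ip_φ {k : ℕ} (x y : V k) : ip (φ • x) (φ • y) = 2 * ip x y := by
  rw [ip_csmul_left, smul_smul, conjφ_mul]
  have : (2 : ℂ) • y = (2 : ℝ) • y := by
    funext s; simp
  rw [this, ip_smul_right]

theorem ip_φ_self {k : ℕ} (x : V k) : ip x (φ • x) = ip x x := by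
  rw [φ_smul, ip_add_right, ip_I, add_zero]

/-! ### Pairs -/

/-- The vector with halves `a`, `b`. -/
def pair {k : ℕ} (a b : V k) : V (k + 1) := fun s => ![a (Fin.tail s), b (Fin.tail s)] (s 0)

/-- The first half. -/
def lo {k : ℕ} (x : V (k + 1)) : V k := fun s => x (Fin.cons 0 s)

/-- The second half. -/
def hi {k : ℕ} (x : V (k + 1)) : V k := fun s => x (Fin.cons 1 s)

section pair
variable {k : ℕ}

@[simp] theorem lo_pair (a b : V k) : lo (pair a b) = a := by
  funext s; simp [lo, pair]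

@[simp] theorem hi_pair (a b : V k) : hi (pair a b) = b := by
  funext s; simp [hi, pair]

theorem pair_lo_hi (x : V (k + 1)) : pair (lo x) (hi x) = x := by
  funext s
  have h : s 0 = 0 ∨ s 0 = 1 := by omega
  rcases h with h | h
  · have h1 : (Fin.cons 0 (Fin.tail s) : Fin (k + 1) → Fin 2) = s := by
      rw [← h, Fin.cons_self_tail]
    have h2 := congrFun (lo_pair (lo x) (hi x)) (Fin.tail s)
    unfold lo at h2
    rw [h1] at h2
    exact h2
  · have h1 : (Fin.cons 1 (Fin.tail s) : Fin (k + 1) → Fin 2) = s := by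
      rw [← h, Fin.cons_self_tail]
    have h2 := congrFun (hi_pair (lo x) (hi x)) (Fin.tail s)
    unfold hi at h2
    rw [h1] at h2
    exact h2

theorem pair_inj {a b c d : V k} (h : pair a b = pair c d) : a = c ∧ b = d :=
  ⟨by simpa using congrArg lo h, by simpa using congrArg hi h⟩

theorem sum_split {M : Type*} [AddCommMonoid M] (f : (Fin (k + 1) → Fin 2) → M) :
    ∑ s, f s = ∑ s : Fin k → Fin 2, f (Fin.cons 0 s) + ∑ s : Fin k → Fin 2, f (Fin.cons 1 s) := by
  rw [← (Fin.consEquiv fun _ : Fin (k + 1) => Fin 2).sum_comp, Fintype.sum_prod_type,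
    Fin.sum_univ_two]
  rfl

theorem ip_split (x y : V (k + 1)) : ip x y = ip (lo x) (lo y) + ip (hi x) (hi y) := by
  unfold ip
  rw [sum_split]
  rfl

theorem ip_pair (a b c d : V k) : ip (pair a b) (pair c d) = ip a c + ip b d := by
  rw [ip_split]; simp

theorem ip_pair_left (a b : V k) (y : V (k + 1)) : ip (pair a b) y = ip a (lo y) + ip b (hi y) := by
  rw [ip_split]; simp

theorem pair_add (a b c d : V k) : pair a b + pair c d = pair (a + c) (b + d) := by
  rw [← pair_lo_hi (pair a b + pair c d)]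
  refine congrArg₂ pair (funext fun s => ?_) (funext fun s => ?_)
  · have h1 := congrFun (lo_pair a b) s
    have h2 := congrFun (lo_pair c d) s
    show lo (pair a b) s + lo (pair c d) s = _
    rw [h1, h2, Pi.add_apply]
  · have h1 := congrFun (hi_pair a b) s
    have h2 := congrFun (hi_pair c d) s
    show hi (pair a b) s + hi (pair c d) s = _
    rw [h1, h2, Pi.add_apply]

theorem pair_smul (r : ℂ) (a b : V k) : r • pair a b = pair (r • a) (r • b) := by
  rw [← pair_lo_hi (r • pair a b)]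
  refine congrArg₂ pair (funext fun s => ?_) (funext fun s => ?_)
  · have h1 := congrFun (lo_pair a b) s
    show r • lo (pair a b) s = _
    rw [h1, Pi.smul_apply]
  · have h1 := congrFun (hi_pair a b) s
    show r • hi (pair a b) s = _
    rw [h1, Pi.smul_apply]

theorem pair_rsmul (r : ℝ) (a b : V k) : r • pair a b = pair (r • a) (r • b) := by
  rw [← pair_lo_hi (r • pair a b)]
  refine congrArg₂ pair (funext fun s => ?_) (funext fun s => ?_)
  · have h1 := congrFun (lo_pair a b) s
    show r • lo (pair a b) s = _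
    rw [h1, Pi.smul_apply]
  · have h1 := congrFun (hi_pair a b) s
    show r • hi (pair a b) s = _
    rw [h1, Pi.smul_apply]

theorem pair_neg (a b : V k) : - pair a b = pair (-a) (-b) := by
  have := pair_smul (-1) a b
  simpa using this

theorem pair_sub (a b c d : V k) : pair a b - pair c d = pair (a - c) (b - d) := by
  rw [sub_eq_add_neg, pair_neg, pair_add, ← sub_eq_add_neg, ← sub_eq_add_neg]

theorem pair_zero : pair (0 : V k) 0 = 0 := by
  have := pair_smul 0 (0 : V k) 0
  simpa using this.symm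

theorem lo_add (x y : V (k + 1)) : lo (x + y) = lo x + lo y := rfl
theorem hi_add (x y : V (k + 1)) : hi (x + y) = hi x + hi y := rfl
theorem lo_sub (x y : V (k + 1)) : lo (x - y) = lo x - lo y := rfl
theorem hi_sub (x y : V (k + 1)) : hi (x - y) = hi x - hi y := rfl
theorem lo_neg (x : V (k + 1)) : lo (-x) = -lo x := rfl
theorem hi_neg (x : V (k + 1)) : hi (-x) = -hi x := rfl
theorem lo_smul (r : ℂ) (x : V (k + 1)) : lo (r • x) = r • lo x := rfl
theorem hi_smul (r : ℂ) (x : V (k + 1)) : hi (r • x) = r • hi x := rfl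
theorem lo_rsmul (r : ℝ) (x : V (k + 1)) : lo (r • x) = r • lo x := rfl
theorem hi_rsmul (r : ℝ) (x : V (k + 1)) : hi (r • x) = r • hi x := rfl

end pair

/-! ### The lattice -/

/-- The matrix `(1, 1; 0, 1 + i)`. -/
def gen : Matrix (Fin 2) (Fin 2) ℂ := !![1, 1; 0, 1 + I]

/-- The Barnes-Wall lattice: the combinations with coefficients in the Gaussian integers of the
rows of the Kronecker power of `gen`. -/
def L (k : ℕ) : Set (V k) :=
  {x | ∃ c : (Fin k → Fin 2) → GaussianInt, ∀ s, x s = ∑ r, (c r : ℂ) * ∏ j, gen (r j) (s j)}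

section L
variable {k : ℕ}

theorem L_zero : (0 : V k) ∈ L k := ⟨0, fun s => by simp⟩

theorem L_add {x y : V k} (hx : x ∈ L k) (hy : y ∈ L k) : x + y ∈ L k := by
  obtain ⟨c, hc⟩ := hx
  obtain ⟨d, hd⟩ := hy
  refine ⟨c + d, fun s => ?_⟩
  rw [Pi.add_apply, hc, hd, ← Finset.sum_add_distrib]
  exact Finset.sum_congr rfl fun r _ => by rw [Pi.add_apply, map_add]; ring

theorem L_smul (a : GaussianInt) {x : V k} (hx : x ∈ L k) : (a : ℂ) • x ∈ L k := by
  obtain ⟨c, hc⟩ := hx
  refine ⟨fun r => a * c r, fun s => ?_⟩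
  rw [Pi.smul_apply, hc, smul_eq_mul, Finset.mul_sum]
  exact Finset.sum_congr rfl fun r _ => by rw [map_mul]; ring

theorem L_neg {x : V k} (hx : x ∈ L k) : -x ∈ L k := by
  have := L_smul (-1) hx
  simpa using this

theorem L_sub {x y : V k} (hx : x ∈ L k) (hy : y ∈ L k) : x - y ∈ L k := by
  rw [sub_eq_add_neg]; exact L_add hx (L_neg hy)

theorem L_I {x : V k} (hx : x ∈ L k) : I • x ∈ L k := by
  have := L_smul ⟨0, 1⟩ hx
  have h : ((⟨0, 1⟩ : GaussianInt) : ℂ) = I := by
    rw [GaussianInt.toComplex_def]; simp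
  rwa [h] at this

theorem L_φ {x : V k} (hx : x ∈ L k) : φ • x ∈ L k := by
  rw [φ_smul]; exact L_add hx (L_I hx)

theorem L_succ (a b : V k) : pair a b ∈ L (k + 1) ↔ a ∈ L k ∧ ∃ e ∈ L k, b - a = φ • e := by
  have key : ∀ (c : (Fin (k + 1) → Fin 2) → GaussianInt) (i : Fin 2) (s : Fin k → Fin 2),
      ∑ r, (c r : ℂ) * ∏ j, gen (r j) ((Fin.cons i s : Fin (k + 1) → Fin 2) j) =
      gen 0 i * ∑ r : Fin k → Fin 2, (c (Fin.cons 0 r) : ℂ) * ∏ j, gen (r j) (s j) +
      gen 1 i * ∑ r : Fin k → Fin 2, (c (Fin.cons 1 r) : ℂ) * ∏ j, gen (r j) (s j) := by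
    intro c i s
    rw [sum_split, Finset.mul_sum, Finset.mul_sum]
    congr 1
    · refine Finset.sum_congr rfl fun r _ => ?_
      rw [Fin.prod_univ_succ]
      simp only [Fin.cons_zero, Fin.cons_succ]
      ring
    · refine Finset.sum_congr rfl fun r _ => ?_
      rw [Fin.prod_univ_succ]
      simp only [Fin.cons_zero, Fin.cons_succ]
      ring
  constructor
  · rintro ⟨c, hc⟩
    have h0 : ∀ s, a s = ∑ r : Fin k → Fin 2, (c (Fin.cons 0 r) : ℂ) * ∏ j, gen (r j) (s j) := by
      intro s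
      have h1 := hc (Fin.cons 0 s)
      rw [key] at h1
      have h2 : pair a b (Fin.cons 0 s) = a s := congrFun (lo_pair a b) s
      rw [h2] at h1
      rw [h1]
      simp [gen]
    refine ⟨⟨fun r => c (Fin.cons 0 r), h0⟩,
      fun s => ∑ r : Fin k → Fin 2, (c (Fin.cons 1 r) : ℂ) * ∏ j, gen (r j) (s j),
      ⟨fun r => c (Fin.cons 1 r), fun s => rfl⟩, ?_⟩
    funext s
    have h1 := hc (Fin.cons 1 s)
    rw [key] at h1
    have h2 : pair a b (Fin.cons 1 s) = b s := congrFun (hi_pair a b) s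
    rw [h2] at h1
    rw [Pi.sub_apply, h1, h0, Pi.smul_apply]
    simp [gen, φ]
  · rintro ⟨⟨c, hc⟩, e, ⟨d, hd⟩, he⟩
    refine ⟨fun r => ![c (Fin.tail r), d (Fin.tail r)] (r 0), fun s => ?_⟩
    rw [← Fin.cons_self_tail s, key]
    have hb : ∀ s, b s = a s + φ * e s := by
      intro s
      have := congrFun he s
      rw [Pi.sub_apply, Pi.smul_apply, smul_eq_mul] at this
      rw [← this]; ring
    have h : s 0 = 0 ∨ s 0 = 1 := by omega
    rcases h with h | h
    · rw [h]
      have h2 : pair a b (Fin.cons 0 (Fin.tail s)) = a (Fin.tail s) := congrFun (lo_pair a b) _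
      rw [h2, hc]
      simp [gen]
    · rw [h]
      have h2 : pair a b (Fin.cons 1 (Fin.tail s)) = b (Fin.tail s) := congrFun (hi_pair a b) _
      rw [h2, hb, hc, hd]
      simp [gen, φ]

/-- Congruence modulo `1 + i`. -/
def Cong (x y : V k) : Prop := ∃ e ∈ L k, x - y = φ • e

theorem Cong.refl (x : V k) : Cong x x := ⟨0, L_zero, by simp⟩

theorem Cong.symm {x y : V k} (h : Cong x y) : Cong y x := by
  obtain ⟨e, he, h⟩ := h
  exact ⟨-e, L_neg he, by rw [smul_neg, ← h]; abel⟩

theorem Cong.trans {x y z : V k} (h : Cong x y) (h' : Cong y z) : Cong x z := by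
  obtain ⟨e, he, h⟩ := h
  obtain ⟨e', he', h'⟩ := h'
  exact ⟨e + e', L_add he he', by rw [smul_add, ← h, ← h']; abel⟩

theorem two_smul_eq (x : V k) : x + x = φ • ((starRingEnd ℂ) φ • x) := by
  rw [smul_smul, mul_comm, conjφ_mul]
  funext s; simp; ring

theorem L_conjφ {x : V k} (hx : x ∈ L k) : (starRingEnd ℂ) φ • x ∈ L k := by
  rw [conjφ, sub_smul, one_smul]
  exact L_sub hx (L_I hx)

theorem cong_neg {x : V k} (hx : x ∈ L k) : Cong x (-x) :=
  ⟨(starRingEnd ℂ) φ • x, L_conjφ hx, by rw [sub_neg_eq_add, two_smul_eq]⟩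

theorem cong_I {x : V k} (hx : x ∈ L k) : Cong (I • x) x := by
  refine ⟨I • x, L_I hx, ?_⟩
  rw [smul_smul]
  have : φ * I = I - 1 := by unfold φ; linear_combination I_mul_I
  rw [this, sub_smul, one_smul]

/-- The norms of the nonzero vectors of the lattice. -/
theorem min_norm : ∀ (k : ℕ) (x : V k), x ∈ L k → x ≠ 0 → (2 : ℝ) ^ k ≤ ip x x := by
  intro k
  induction k with
  | zero =>
    rintro x ⟨c, hc⟩ hx
    have h1 : ∀ s, x s = (c default : ℂ) := by
      intro s
      rw [hc s, Fintype.sum_unique, Finset.univ_eq_empty, Finset.prod_empty, mul_one]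
      exact congrArg (fun r => (c r : ℂ)) (Subsingleton.elim _ _)
    have h2 : c default ≠ 0 := by
      intro h
      apply hx
      funext s
      rw [h1 s, h]; simp
    have h3 : ip x x = ((c default).norm : ℝ) := by
      unfold ip
      rw [Fintype.sum_unique, h1]
      have h4 : ((c default).norm : ℝ) = Complex.normSq (c default : ℂ) :=
        GaussianInt.intCast_real_norm _
      rw [h4, Complex.normSq_apply]
    rw [h3, pow_zero]
    have h4 : 0 < (c default).norm := by
      have h5 := GaussianInt.norm_nonneg (c default)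
      have h6 : (c default).norm ≠ 0 := by
        intro h
        exact h2 ((GaussianInt.norm_eq_zero).mp h)
      omega
    exact_mod_cast h4
  | succ k ih =>
    intro x hx hx0
    rw [← pair_lo_hi x] at hx hx0 ⊢
    set a := lo x
    set b := hi x
    obtain ⟨ha, e, he, hbe⟩ := (L_succ a b).mp hx
    have hb : b ∈ L k := by
      have : b = a + φ • e := by rw [← hbe]; abel
      rw [this]; exact L_add ha (L_φ he)
    rw [ip_pair, pow_succ]
    by_cases ha0 : a = 0
    · rw [ha0, sub_zero] at hbe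
      have he0 : e ≠ 0 := by
        rintro rfl
        apply hx0
        rw [ha0, hbe, smul_zero, pair_zero]
      rw [ha0, hbe, ip_φ]
      have := ih e he he0
      simp only [ip_zero_left, zero_add]
      linarith
    · by_cases hb0 : b = 0
      · rw [hb0, zero_sub] at hbe
        have he0 : e ≠ 0 := by
          rintro rfl
          rw [smul_zero, neg_eq_zero] at hbe
          exact ha0 hbe
        have h1 : ip a a = 2 * ip e e := by
          rw [← ip_φ, ← hbe, ip_neg_left, ip_neg_right, neg_neg]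
        rw [hb0, h1]
        have := ih e he he0
        simp only [ip_zero_left, add_zero]
        linarith
      · have h1 := ih a ha ha0
        have h2 := ih b hb hb0
        linarith

/-- The minimal vectors. -/
def X (k : ℕ) : Set (V k) := {x | x ∈ L k ∧ ip x x = 2 ^ k}

theorem X_ne_zero {x : V k} (hx : x ∈ X k) : x ≠ 0 := by
  rintro rfl
  have := hx.2
  rw [ip_zero_left] at this
  have h2 : (0 : ℝ) < 2 ^ k := by positivity
  linarith

theorem X_of_φ {x : V k} (hL : x ∈ L k) (h : ip (φ • x) (φ • x) = 2 ^ (k + 1)) : x ∈ X k := by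
  refine ⟨hL, ?_⟩
  rw [ip_φ, pow_succ] at h
  linarith

theorem X_succ (a b : V k) : pair a b ∈ X (k + 1) ↔
    (∃ x ∈ X k, a = φ • x ∧ b = 0) ∨ (∃ x ∈ X k, a = 0 ∧ b = φ • x) ∨
      (a ∈ X k ∧ b ∈ X k ∧ Cong a b) := by
  constructor
  · rintro ⟨hL, hn⟩
    obtain ⟨ha, e, he, hbe⟩ := (L_succ a b).mp hL
    have hb : b ∈ L k := by
      have : b = a + φ • e := by rw [← hbe]; abel
      rw [this]; exact L_add ha (L_φ he)
    rw [ip_pair] at hn
    by_cases ha0 : a = 0
    · rw [ha0, sub_zero] at hbe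
      refine Or.inr (Or.inl ⟨e, X_of_φ he ?_, ha0, hbe⟩)
      rw [← hbe, ← hn, ha0, ip_zero_left, zero_add]
    · by_cases hb0 : b = 0
      · rw [hb0, zero_sub] at hbe
        refine Or.inl ⟨-e, X_of_φ (L_neg he) ?_, ?_, hb0⟩
        · rw [smul_neg, ← hbe, neg_neg, ← hn, hb0, ip_zero_left, add_zero]
        · rw [smul_neg, ← hbe, neg_neg]
      · have h1 := min_norm k a ha ha0
        have h2 := min_norm k b hb hb0
        rw [pow_succ] at hn
        refine Or.inr (Or.inr ⟨⟨ha, by linarith⟩, ⟨hb, by linarith⟩, ?_⟩)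
        exact Cong.symm ⟨e, he, hbe⟩
  · rintro (⟨x, hx, rfl, rfl⟩ | ⟨x, hx, rfl, rfl⟩ | ⟨ha, hb, hab⟩)
    · refine ⟨(L_succ _ _).mpr ⟨L_φ hx.1, -x, L_neg hx.1, by rw [smul_neg]; abel⟩, ?_⟩
      rw [ip_pair, ip_φ, ip_zero_left, hx.2, pow_succ]; ring
    · refine ⟨(L_succ _ _).mpr ⟨L_zero, x, hx.1, by rw [sub_zero]⟩, ?_⟩
      rw [ip_pair, ip_φ, ip_zero_left, hx.2, pow_succ]; ring
    · refine ⟨(L_succ _ _).mpr ⟨ha.1, hab.symm⟩, ?_⟩
      rw [ip_pair, ha.2, hb.2, pow_succ]; ring

theorem X_neg {x : V k} (hx : x ∈ X k) : -x ∈ X k :=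
  ⟨L_neg hx.1, by rw [ip_neg_left, ip_neg_right, neg_neg, hx.2]⟩

theorem X_I {x : V k} (hx : x ∈ X k) : I • x ∈ X k :=
  ⟨L_I hx.1, by rw [ip_I_left, smul_smul, I_mul_I, neg_smul, one_smul, ip_neg_right, neg_neg,
    hx.2]⟩

theorem X_φl {x : V k} (hx : x ∈ X k) : pair (φ • x) 0 ∈ X (k + 1) :=
  (X_succ _ _).mpr (Or.inl ⟨x, hx, rfl, rfl⟩)

theorem X_φr {x : V k} (hx : x ∈ X k) : pair 0 (φ • x) ∈ X (k + 1) :=
  (X_succ _ _).mpr (Or.inr (Or.inl ⟨x, hx, rfl, rfl⟩))

theorem X_pair {x y : V k} (hx : x ∈ X k) (hy : y ∈ X k) (h : Cong x y) : pair x y ∈ X (k + 1) :=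
  (X_succ _ _).mpr (Or.inr (Or.inr ⟨hx, hy, h⟩))

theorem X_sub {x y : V k} (hx : x ∈ X k) (hy : y ∈ X k) (h : 2 * ip x y = 2 ^ k) :
    x - y ∈ X k := by
  refine ⟨L_sub hx.1 hy.1, ?_⟩
  rw [ip_sub_left, ip_sub_right, ip_sub_right, hx.2, hy.2, ip_comm y x]
  linarith

/-- Distinct congruent minimal vectors are opposite or orthogonal. -/
theorem cong_cases {x y : V k} (hx : x ∈ X k) (hy : y ∈ X k) (h : Cong x y) :
    x = y ∨ x = -y ∨ (ip x y = 0 ∧ ∃ z ∈ X k, x + y = φ • z) := by
  by_cases h1 : x = y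
  · exact Or.inl h1
  by_cases h2 : x = -y
  · exact Or.inr (Or.inl h2)
  right; right
  obtain ⟨e, he, hxy⟩ := h
  have he0 : e ≠ 0 := by
    rintro rfl
    rw [smul_zero, sub_eq_zero] at hxy
    exact h1 hxy
  have hle : ip x y ≤ 0 := by
    have h3 := min_norm k e he he0
    have h4 := ip_φ e e
    rw [← hxy, ip_sub_left, ip_sub_right, ip_sub_right, hx.2, hy.2, ip_comm y x] at h4
    linarith
  obtain ⟨f, hf, hxy'⟩ : ∃ f ∈ L k, x + y = φ • f := by
    refine ⟨e + (starRingEnd ℂ) φ • y, L_add he (L_conjφ hy.1), ?_⟩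
    rw [smul_add, ← hxy, ← two_smul_eq]; abel
  have hf0 : f ≠ 0 := by
    rintro rfl
    rw [smul_zero] at hxy'
    exact h2 (eq_neg_of_add_eq_zero_left hxy')
  have hge : 0 ≤ ip x y := by
    have h3 := min_norm k f hf hf0
    have h4 := ip_φ f f
    rw [← hxy', ip_add_left, ip_add_right, ip_add_right, hx.2, hy.2, ip_comm y x] at h4
    linarith
  have h0 : ip x y = 0 := le_antisymm hle hge
  refine ⟨h0, f, ⟨hf, ?_⟩, hxy'⟩
  have h4 := ip_φ f f
  rw [← hxy', ip_add_left, ip_add_right, ip_add_right, hx.2, hy.2, ip_comm y x, h0] at h4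
  linarith

end L

end Pool.Agent.Q141.BW
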