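import Pool.Agent.Q141.BW.Base
import Pool.Agent.H976R3.Kiss.Jam

/-!
# From first order rigidity to jamming
-/

set_option autoImplicit false

open Complex Pool.Agent.H976R3.Kiss

namespace Pool.Agent.Q141.BW

/-- The real Euclidean space of dimension `2 ^ (k + 1)`. -/
abbrev E (k : ℕ) := EuclideanSpace ℝ ((Fin k → Fin 2) × Fin 2)

/-- Real and imaginary parts. -/
noncomputable def toR (k : ℕ) : V k ≃ₗ[ℝ] E k where
  toFun z := WithLp.toLp 2 fun p => ![(z p.1).re, (z p.1).im] p.2
  invFun x := fun s => ⟨x (s, 0), x (s, 1)⟩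
  left_inv z := by
    funext s
    apply Complex.ext <;> simp
  right_inv x := by
    ext ⟨s, i⟩
    fin_cases i <;> simp
  map_add' z w := by
    ext ⟨s, i⟩
    fin_cases i <;> simp
  map_smul' r z := by
    ext ⟨s, i⟩
    fin_cases i <;> simp

theorem inner_toR {k : ℕ} (x y : V k) : inner ℝ (toR k x) (toR k y) = ip x y := by
  rw [PiLp.inner_apply, Fintype.sum_prod_type]
  unfold ip
  refine Finset.sum_congr rfl fun s _ => ?_
  rw [Fin.sum_univ_two]
  simp only [toR, LinearEquiv.coe_mk, LinearMap.coe_mk, AddHom.coe_mk, RCLike.inner_apply,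
    conj_trivial, Matrix.cons_val_zero, Matrix.cons_val_one]
  ring

theorem inner_toR_symm {k : ℕ} (x : V k) (y : E k) :
    inner ℝ (toR k x) y = ip x ((toR k).symm y) := by
  rw [← inner_toR, LinearEquiv.apply_symm_apply]

theorem finite_X : ∀ k : ℕ, (X k).Finite := by
  intro k
  induction k with
  | zero =>
    obtain ⟨x, hx⟩ := X_nonempty 0
    refine Set.Finite.subset (Set.toFinite {x, I • x, -x, -(I • x)}) fun y hy => ?_
    exact X0_cases hx hy
  | succ k ih =>
    refine Set.Finite.subset (((ih.image fun x => pair (φ • x) 0).union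
      (ih.image fun x => pair 0 (φ • x))).union ((ih.prod ih).image fun p => pair p.1 p.2)) ?_
    intro x hx
    rw [← pair_lo_hi x] at hx ⊢
    rcases (X_succ _ _).mp hx with ⟨y, hy, h1, h2⟩ | ⟨y, hy, h1, h2⟩ | ⟨ha, hb, -⟩
    · rw [h1, h2]; exact Or.inl (Or.inl ⟨y, hy, rfl⟩)
    · rw [h1, h2]; exact Or.inl (Or.inr ⟨y, hy, rfl⟩)
    · exact Or.inr ⟨(lo x, hi x), ⟨ha, hb⟩, rfl⟩

noncomputable instance (k : ℕ) : Fintype (X k) := (finite_X k).fintype

/-- The scaled minimal vectors. -/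
noncomputable def fam (k : ℕ) (x : X k) : E k := (√(2 ^ k))⁻¹ • toR k x.1

theorem sqrt_pos' (k : ℕ) : (0 : ℝ) < √(2 ^ k) := Real.sqrt_pos.mpr (by positivity)

theorem inner_fam {k : ℕ} (x y : X k) : inner ℝ (fam k x) (fam k y) = ip x.1 y.1 / 2 ^ k := by
  unfold fam
  rw [inner_smul_left, inner_smul_right, inner_toR, conj_trivial, ← mul_assoc, ← mul_inv,
    Real.mul_self_sqrt (by positivity), div_eq_inv_mul]

theorem norm_fam {k : ℕ} (x : X k) : ‖fam k x‖ = 1 := by
  have h1 := inner_fam x x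
  rw [x.2.2, div_self (by positivity), real_inner_self_eq_norm_sq] at h1
  nlinarith [norm_nonneg (fam k x)]

theorem fam_inj {k : ℕ} : Function.Injective (fam k) := by
  intro x y h
  unfold fam at h
  have h1 := smul_right_injective _ (inv_ne_zero (sqrt_pos' k).ne') h
  exact Subtype.ext ((toR k).injective h1)

/-- Conversion of a first order motion. -/
theorem infJammed_of {k : ℕ} (c : ℝ)
    (H : ∀ v : V k → V k, (∀ x ∈ X k, ip x (v x) = 0) →
      (∀ x ∈ X k, ∀ y ∈ X k, x ≠ y → ip x y / 2 ^ k = c → ip x (v y) + ip y (v x) ≤ 0) →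
      ∃ A : V k →ₗ[ℝ] V k, (∀ a b, ip (A a) b = -ip a (A b)) ∧ ∀ x ∈ X k, v x = A x) :
    InfJammed (fam k) c := by
  classical
  intro v hv hc
  have hs := sqrt_pos' k
  set v' : V k → V k := fun x => if h : x ∈ X k then (toR k).symm (v ⟨x, h⟩) else 0 with hv'
  have hvx : ∀ x : X k, v' x.1 = (toR k).symm (v x) := by
    intro x; simp [hv']
  have hin : ∀ x y : X k, inner ℝ (fam k x) (v y) = (√(2 ^ k))⁻¹ * ip x.1 (v' y.1) := by
    intro x y
    unfold fam
    rw [inner_smul_left, conj_trivial, inner_toR_symm, hvx]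
  obtain ⟨A, hA, hAv⟩ := H v' (fun x hx => by
    have h1 := hv ⟨x, hx⟩
    rw [hin] at h1
    exact (mul_eq_zero.mp h1).resolve_left (inv_ne_zero hs.ne')) (fun x hx y hy hne hxy => by
    have h1 := hc ⟨x, hx⟩ ⟨y, hy⟩ (fun h => hne (congrArg Subtype.val h)) (by
      rw [inner_fam]; exact hxy)
    rw [hin, hin, ← mul_add] at h1
    have h2 := inv_pos.mpr hs
    by_contra hcon
    push Not at hcon
    exact absurd h1 (not_le.mpr (mul_pos h2 hcon)))
  refine ⟨LinearMap.toContinuousLinearMap (√(2 ^ k) •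
    ((toR k).toLinearMap ∘ₗ A ∘ₗ (toR k).symm.toLinearMap)), fun u w => ?_, fun x => ?_⟩
  · show inner ℝ (√(2 ^ k) • toR k (A ((toR k).symm u))) w =
      -inner ℝ u (√(2 ^ k) • toR k (A ((toR k).symm w)))
    rw [inner_smul_left, inner_smul_right, conj_trivial, inner_toR_symm, real_inner_comm,
      inner_toR_symm, hA, ip_comm ((toR k).symm u)]
    ring
  · show _ = √(2 ^ k) • toR k (A ((toR k).symm (fam k x)))
    unfold fam
    rw [map_smul, LinearEquiv.symm_apply_apply, map_smul, ← hAv x.1 x.2, hvx, map_smul,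
      LinearEquiv.apply_symm_apply, smul_smul, mul_inv_cancel₀ hs.ne', one_smul]

/-- All contacts are preserved: the uniform stress. -/
theorem contacts {k : ℕ} (v : V k → V k) (ht : ∀ x ∈ X k, ip x (v x) = 0)
    (hc : ∀ x ∈ X k, ∀ y ∈ X k, 2 * ip x y = 2 ^ k → ip x (v y) + ip y (v x) ≤ 0) :
    ∀ x ∈ X k, ∀ y ∈ X k, 2 * ip x y = 2 ^ k → ip x (v y) + ip y (v x) = 0 := by
  classical
  set F := (finite_X k).toFinset with hF
  have mF : ∀ x, x ∈ F ↔ x ∈ X k := fun x => (finite_X k).mem_toFinset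
  set g : V k → V k → ℝ := fun x y =>
    if 2 * ip x y = 2 ^ k then ip x (v y) + ip y (v x) else 0 with hg
  have hg0 : ∀ x ∈ F, ∀ y ∈ F, g x y ≤ 0 := by
    intro x hx y hy
    simp only [hg]
    split_ifs with h
    · exact hc x ((mF x).mp hx) y ((mF y).mp hy) h
    · exact le_rfl
  have half : ∀ x ∈ F, ∑ y ∈ F, (if 2 * ip x y = 2 ^ k then ip y (v x) else 0) = 0 := by
    intro x hx
    have hx' := (mF x).mp hx
    rw [← Finset.sum_filter]
    have h1 : ∑ y ∈ F with 2 * ip x y = 2 ^ k, ip y (v x) =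
        ∑ y ∈ F with 2 * ip x y = 2 ^ k, ip (x - y) (v x) := by
      refine Finset.sum_bij (fun y _ => x - y) ?_ ?_ ?_ ?_
      · intro y hy
        rw [Finset.mem_filter, mF] at hy ⊢
        refine ⟨X_sub hx' hy.1 hy.2, ?_⟩
        rw [ip_sub_right, hx'.2]
        linarith [hy.2]
      · intro a _ b _ hab
        have := congrArg (fun z => x - z) hab
        simpa using this
      · intro y hy
        rw [Finset.mem_filter, mF] at hy
        refine ⟨x - y, ?_, by abel⟩
        rw [Finset.mem_filter, mF]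
        refine ⟨X_sub hx' hy.1 hy.2, ?_⟩
        rw [ip_sub_right, hx'.2]
        linarith [hy.2]
      · intro y _
        rw [sub_sub_cancel]
    have h2 : ∑ y ∈ F with 2 * ip x y = 2 ^ k, ip (x - y) (v x) =
        -∑ y ∈ F with 2 * ip x y = 2 ^ k, ip y (v x) := by
      rw [← Finset.sum_neg_distrib]
      refine Finset.sum_congr rfl fun y _ => ?_
      rw [ip_sub_left, ht x hx', zero_sub]
    linarith
  have hsum : ∑ x ∈ F, ∑ y ∈ F, g x y = 0 := by
    have h1 : ∀ x y, g x y = (if 2 * ip y x = 2 ^ k then ip x (v y) else 0) +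
        (if 2 * ip x y = 2 ^ k then ip y (v x) else 0) := by
      intro x y
      simp only [hg, ip_comm y x]
      split_ifs <;> ring
    simp only [h1, Finset.sum_add_distrib]
    rw [Finset.sum_comm, Finset.sum_eq_zero half, zero_add]
  intro x hx y hy hxy
  have h1 := (Finset.sum_eq_zero_iff_of_nonpos fun x hx =>
    Finset.sum_nonpos fun y hy => hg0 x hx y hy).mp hsum x ((mF x).mpr hx)
  have h2 := (Finset.sum_eq_zero_iff_of_nonpos fun y hy =>
    hg0 x ((mF x).mpr hx) y hy).mp h1 y ((mF y).mpr hy)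
  simp only [hg, if_pos hxy] at h2
  exact h2

theorem infJammed_pos {k : ℕ} (hk : 1 ≤ k) : InfJammed (fam k) (1 / 2) := by
  refine infJammed_of _ fun v ht hc => ?_
  have h2 : (2 : ℝ) ^ k ≠ 0 := by positivity
  refine inf_all k hk v ⟨ht, contacts v ht fun x hx y hy hxy => ?_⟩
  refine hc x hx y hy ?_ ?_
  · rintro rfl
    rw [hx.2] at hxy
    have : (0 : ℝ) < 2 ^ k := by positivity
    linarith
  · rw [div_eq_iff h2]; linarith

theorem infJammed_zero : InfJammed (fam 0) 0 := by
  refine infJammed_of _ fun v ht hc => ?_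
  have hne : ∀ x ∈ X 0, x ≠ I • x := by
    intro x hx h
    have h1 := X0_norm hx
    have h2 := ip_I x
    rw [← h] at h2
    linarith
  set a : V 0 → ℝ := fun x => ip (I • x) (v x) with ha
  have hva : ∀ x ∈ X 0, v x = a x • (I • x) := by
    intro x hx
    rw [← sub_eq_zero]
    apply X0_zero hx
    · rw [ip_sub_right, ip_smul_right, ip_I, ht x hx]; ring
    · rw [ip_sub_right, ip_smul_right, ip_II, X0_norm hx]; simp [ha]
  have hle : ∀ x ∈ X 0, a x ≤ a (I • x) := by
    intro x hx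
    have h1 := hc x hx _ (X_I hx) (hne x hx) (by rw [ip_I, zero_div])
    rw [hva _ (X_I hx), hva x hx, I_I, ip_smul_right, ip_smul_right, ip_neg_right, ip_II,
      X0_norm hx] at h1
    linarith
  obtain ⟨x₀, hx₀⟩ := X_nonempty 0
  have e1 := hle _ hx₀
  have e2 := hle _ (X_I hx₀)
  have e3 := hle _ (X_neg hx₀)
  have e4 := hle _ (X_neg (X_I hx₀))
  rw [I_I] at e2
  rw [smul_neg] at e3
  rw [smul_neg, I_I, neg_neg] at e4
  have hconst : ∀ x ∈ X 0, a x = a x₀ := by
    intro x hx
    rcases X0_cases hx₀ hx with h | h | h | h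
    · rw [h]
    · rw [h]; linarith
    · rw [h]; linarith
    · rw [h]; linarith
  refine ⟨a x₀ • (mulI 0).toLinearMap.restrictScalars ℝ, fun p d => ?_, fun x hx => ?_⟩
  · show ip (a x₀ • (I • p)) d = -ip p (a x₀ • (I • d))
    rw [ip_smul_left, ip_smul_right, ip_I_left]; ring
  · show v x = a x₀ • (I • x)
    rw [hva x hx, hconst x hx]

end Pool.Agent.Q141.BW
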