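import Pool.Agent.Q141.BW.Auto

/-!
# First order rigidity passes from one Barnes-Wall lattice to the next
-/

set_option autoImplicit false

open Complex

namespace Pool.Agent.Q141.BW

variable {k : ℕ}

/-- The conditions on a first order motion: tangency and preservation of all contacts. -/
structure Cond (k : ℕ) (v : V k → V k) : Prop where
  tan : ∀ x ∈ X k, ip x (v x) = 0
  con : ∀ x ∈ X k, ∀ y ∈ X k, 2 * ip x y = 2 ^ k → ip x (v y) + ip y (v x) = 0

/-- First order rigidity: all first order motions preserving the contacts are trivial. -/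
def Inf (k : ℕ) : Prop := ∀ v : V k → V k, Cond k v →
  ∃ A : V k →ₗ[ℝ] V k, (∀ a b, ip (A a) b = -ip a (A b)) ∧ ∀ x ∈ X k, v x = A x

/-- Block maps. -/
noncomputable def blk (P Q R S : V k →ₗ[ℝ] V k) : V (k + 1) →ₗ[ℝ] V (k + 1) where
  toFun x := pair (P (lo x) + Q (hi x)) (R (lo x) + S (hi x))
  map_add' x y := by
    rw [lo_add, hi_add, pair_add]; simp only [map_add]
    congr 1 <;> abel
  map_smul' r x := by
    rw [lo_rsmul, hi_rsmul, RingHom.id_apply, pair_rsmul]; simp only [map_smul, smul_add]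

theorem blk_apply (P Q R S : V k →ₗ[ℝ] V k) (x : V (k + 1)) :
    blk P Q R S x = pair (P (lo x) + Q (hi x)) (R (lo x) + S (hi x)) := rfl

theorem blk_pair (P Q R S : V k →ₗ[ℝ] V k) (a b : V k) :
    blk P Q R S (pair a b) = pair (P a + Q b) (R a + S b) := by
  rw [blk_apply, lo_pair, hi_pair]

section

variable {v : V (k + 1) → V (k + 1)}

theorem Cond.swap (h : Cond (k + 1) v) : Cond (k + 1) (fun x => sw k (v (sw k x))) := by
  have hs : ∀ x : V (k + 1), sw k (sw k x) = x := fun x => by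
    rw [sw_apply, sw_apply, lo_pair, hi_pair, pair_lo_hi]
  have hi1 : ∀ x y : V (k + 1), ip x (sw k y) = ip (sw k x) y := by
    intro x y
    rw [← (sw_mem (k := k)).1, hs]
  refine ⟨fun x hx => ?_, fun x hx y hy hxy => ?_⟩
  · rw [hi1]; exact h.tan _ (Aut_X sw_mem hx)
  · rw [hi1, hi1]
    exact h.con _ (Aut_X sw_mem hx) _ (Aut_X sw_mem hy) (by rw [(sw_mem (k := k)).1]; exact hxy)

/-- Orthogonal elements of a class. -/
theorem pairwise (h : Cond (k + 1) v) (z1 : ∀ x ∈ X k, lo (v (pair (φ • x) 0)) = 0)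
    {u₁ u₂ w x : V k} (h1 : u₁ ∈ X k) (h2 : u₂ ∈ X k) (hw : w ∈ X k) (hx : x ∈ X k)
    (c1 : Cong u₁ w) (c2 : Cong u₂ w) (h0 : ip u₁ u₂ = 0) (hux : u₁ + u₂ = φ • x) :
    ip u₁ (lo (v (pair u₁ w))) = ip u₁ (lo (v (pair u₂ w))) ∧
    ip u₂ (lo (v (pair u₁ w))) = ip u₂ (lo (v (pair u₂ w))) := by
  have t1 := h.tan _ (X_pair h1 hw c1)
  have t2 := h.tan _ (X_pair h2 hw c2)
  have e1 := h.con _ (X_pair h1 hw c1) _ (X_φl hx) (by
    rw [ip_pair, ip_zero_right, ← hux, ip_add_right, h1.2, h0, pow_succ]; ring)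
  have e2 := h.con _ (X_pair h2 hw c2) _ (X_φl hx) (by
    rw [ip_pair, ip_zero_right, ← hux, ip_add_right, h2.2, ip_comm u₂ u₁, h0, pow_succ]; ring)
  have e3 := h.con _ (X_pair h1 hw c1) _ (X_pair h2 hw c2) (by
    rw [ip_pair, h0, hw.2, pow_succ]; ring)
  simp only [ip_pair_left, ip_zero_left, add_zero, z1 x hx, ip_zero_right, zero_add] at t1 t2 e1 e2 e3
  rw [← hux, ip_add_left] at e1 e2
  constructor <;> linarith

theorem indep (h : Cond (k + 1) v) (z1 : ∀ x ∈ X k, lo (v (pair (φ • x) 0)) = 0)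
    {u₁ u₂ w : V k} (h1 : u₁ ∈ X k) (h2 : u₂ ∈ X k) (hw : w ∈ X k)
    (c1 : Cong u₁ w) (c2 : Cong u₂ w) :
    lo (v (pair u₁ w)) = lo (v (pair u₂ w)) := by
  have key : ∀ a ∈ X k, ∀ u ∈ X k, Cong a w → Cong u w →
      ip a (lo (v (pair u w))) = ip a (lo (v (pair a w))) := by
    intro a ha u hu ca cu
    rcases cong_cases ha hu (ca.trans cu.symm) with rfl | h3 | ⟨h3, x, hx, h4⟩
    · rfl
    · -- opposite vectors, through an intermediate one
      subst h3
      have hI : I • (-u) ∈ X k := X_I ha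
      have cI : Cong (I • (-u)) w := (cong_I ha.1).trans ca
      have p1 := (pairwise h z1 ha hI hw ha ca cI (ip_I _) (φ_smul _).symm).1
      have p2 := (pairwise h z1 hu hI hw hI cu cI
        (by rw [smul_neg, ip_neg_right, ip_I, neg_zero])
        (by rw [φ_smul, smul_smul, I_mul_I, neg_smul, one_smul, neg_neg]; abel)).1
      rw [ip_neg_left, ip_neg_left] at p1 ⊢
      linarith
    · exact (pairwise h z1 ha hu hw hx ca cu h3 h4).1.symm
  have : lo (v (pair u₁ w)) - lo (v (pair u₂ w)) = 0 := by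
    refine eq_zero_of_class hw fun a ha ca => ?_
    rw [ip_sub_right, key a ha u₁ h1 ca c1, key a ha u₂ h2 ca c2, sub_self]
  exact sub_eq_zero.mp this

/-- The main step, for motions whose diagonal part vanishes on the two halves. -/
theorem step0 (hk : 1 ≤ k) (ih : Inf k) (h : Cond (k + 1) v)
    (z1 : ∀ x ∈ X k, lo (v (pair (φ • x) 0)) = 0)
    (z2 : ∀ x ∈ X k, hi (v (pair 0 (φ • x))) = 0) :
    ∃ A : V (k + 1) →ₗ[ℝ] V (k + 1), (∀ a b, ip (A a) b = -ip a (A b)) ∧
      ∀ x ∈ X (k + 1), v x = A x := by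
  -- the functions `W`, `W'`
  have hF : ∀ u ∈ X k, ∀ w ∈ X k, Cong u w → lo (v (pair u w)) = lo (v (pair w w)) :=
    fun u hu w hw c => indep h z1 hu hw hw c (Cong.refl w)
  have hG : ∀ u ∈ X k, ∀ w ∈ X k, Cong u w → hi (v (pair u w)) = hi (v (pair u u)) := by
    intro u hu w hw c
    have h1 := indep (k := k) h.swap (fun x hx => by
      rw [sw_pair, sw_apply, lo_pair]; exact z2 x hx) hw hu hu c.symm (Cong.refl u)
    rw [sw_pair, sw_pair, sw_apply, sw_apply, lo_pair, lo_pair] at h1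
    exact h1
  set W : V k → V k := fun w => lo (v (pair w w)) with hW
  set W' : V k → V k := fun u => hi (v (pair u u)) with hW'
  have hv : ∀ u ∈ X k, ∀ w ∈ X k, Cong u w → v (pair u w) = pair (W w) (W' u) := by
    intro u hu w hw c
    rw [← pair_lo_hi (v (pair u w)), hF u hu w hw c, hG u hu w hw c]
  have tF : ∀ u ∈ X k, ∀ w ∈ X k, Cong u w → ip u (W w) + ip w (W' u) = 0 := by
    intro u hu w hw c
    have := h.tan _ (X_pair hu hw c)
    rwa [hv u hu w hw c, ip_pair] at this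
  -- graphs of automorphisms
  have graph : ∀ g ∈ Aut k, ∃ S : V k →ₗ[ℝ] V k, ∀ x ∈ X k, W (g x) + g.symm (W' x) = S x := by
    intro g hg
    obtain ⟨S, -, hS⟩ := ih (fun x => lo (v (pair x (g x))) + g.symm (hi (v (pair x (g x)))))
      ⟨fun x hx => by
        have h1 := h.tan _ (X_pair hx (Aut_X hg hx) (hg.2 x hx.1).symm)
        rw [ip_pair_left] at h1
        rw [ip_add_right, ip_symm hg]
        exact h1, fun x hx y hy hxy => by
        have h1 := h.con _ (X_pair hx (Aut_X hg hx) (hg.2 x hx.1).symm)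
          _ (X_pair hy (Aut_X hg hy) (hg.2 y hy.1).symm) (by
            rw [ip_pair, hg.1, pow_succ]; linarith)
        rw [ip_pair_left, ip_pair_left] at h1
        rw [ip_add_right, ip_add_right, ip_symm hg, ip_symm hg]
        linarith⟩
    refine ⟨S, fun x hx => ?_⟩
    rw [← hS x hx, hv x hx (g x) (Aut_X hg hx) (hg.2 x hx.1).symm, lo_pair, hi_pair]
  -- linearity
  obtain ⟨g, hg, g', hg', hanti⟩ := exists_anti hk
  obtain ⟨S₁, hS₁⟩ := graph _ Aut_one
  obtain ⟨S₂, hS₂⟩ := graph _ hg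
  obtain ⟨S₃, hS₃⟩ := graph _ hg'
  obtain ⟨S₄, hS₄⟩ := graph _ (Aut_trans hg hg')
  simp only [LinearEquiv.refl_symm, LinearEquiv.refl_apply, LinearEquiv.trans_apply,
    LinearEquiv.trans_symm] at hS₁ hS₄
  have hinv : ∀ y, g.symm (g'.symm y) = -(g'.symm (g.symm y)) := by
    intro y
    apply g'.injective
    apply g.injective
    rw [map_neg, map_neg, LinearEquiv.apply_symm_apply, LinearEquiv.apply_symm_apply, hanti,
      LinearEquiv.apply_symm_apply, LinearEquiv.apply_symm_apply]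
  let gR : V k →ₗ[ℝ] V k := g.toLinearMap.restrictScalars ℝ
  let gR' : V k →ₗ[ℝ] V k := g'.toLinearMap.restrictScalars ℝ
  let gS : V k →ₗ[ℝ] V k := g.symm.toLinearMap.restrictScalars ℝ
  let T' : V k →ₗ[ℝ] V k := (1 / 2 : ℝ) •
    (gR ∘ₗ gR' ∘ₗ (S₄ - S₂ ∘ₗ gR' + gS ∘ₗ S₁ ∘ₗ gR' - gS ∘ₗ S₃))
  have hT' : ∀ x ∈ X k, W' x = T' x := by
    intro x hx
    have e1 := hS₂ (g' x) (Aut_X hg' hx)
    have e2 := hS₁ (g' x) (Aut_X hg' hx)
    have e3 := hS₃ x hx
    have e4 := hS₄ x hx
    have e5 : g'.symm (g.symm (W' x)) + g'.symm (g.symm (W' x)) =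
        S₄ x - S₂ (g' x) + g.symm (S₁ (g' x)) - g.symm (S₃ x) := by
      rw [← e4, ← e1, ← e2, ← e3, map_add, map_add, hinv]
      abel
    have e6 : W' x + W' x =
        g (g' (S₄ x - S₂ (g' x) + g.symm (S₁ (g' x)) - g.symm (S₃ x))) := by
      rw [← e5, map_add, map_add, LinearEquiv.apply_symm_apply, LinearEquiv.apply_symm_apply]
    show _ = (1 / 2 : ℝ) • g (g' (S₄ x - S₂ (g' x) + g.symm (S₁ (g' x)) - g.symm (S₃ x)))
    rw [← e6, ← two_smul ℝ (W' x), smul_smul]
    norm_num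
  let T : V k →ₗ[ℝ] V k := S₁ - T'
  have hT : ∀ x ∈ X k, W x = T x := by
    intro x hx
    show _ = S₁ x - T' x
    rw [← hS₁ x hx, hT' x hx]
    abel
  -- the bilinear relation
  have hQ : ∀ a d : V k, ip (T' a) d + ip a (T d) = 0 := by
    refine bilin_zero T' T fun u hu w hw c => ?_
    rw [← hT' u hu, ← hT w hw, ip_comm (W' u), add_comm]
    exact tF u hu w hw c.symm
  refine ⟨blk 0 T T' 0, fun a b => ?_, fun x hx => ?_⟩
  · rw [blk_apply, blk_apply, ip_pair_left, ip_comm a, ip_pair_left]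
    simp only [LinearMap.zero_apply, zero_add, add_zero]
    have h1 := hQ (lo a) (hi b)
    have h2 := hQ (lo b) (hi a)
    rw [ip_comm (lo b)] at h2
    rw [ip_comm (lo a)] at h1
    linarith
  · rw [← pair_lo_hi x] at hx ⊢
    set a := lo x
    set b := hi x
    rw [blk_pair]
    simp only [LinearMap.zero_apply, zero_add, add_zero]
    rcases (X_succ a b).mp hx with ⟨y, hy, h1, h2⟩ | ⟨y, hy, h1, h2⟩ | ⟨ha, hb, hab⟩
    · rw [h1, h2, map_zero, ← pair_lo_hi (v (pair (φ • y) 0)), z1 y hy]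
      congr 1
      rw [← sub_eq_zero]
      refine eq_zero_of_class hy fun w hw c => ?_
      have h3 := h.con _ (X_pair hy hw c.symm) _ (X_φl hy) (by
        rw [ip_pair, ip_zero_right, ip_φ_self, hy.2, pow_succ]; ring)
      rw [ip_pair_left, ip_pair_left, z1 y hy, ip_zero_right, zero_add, ip_zero_left, add_zero,
        hv y hy w hw c.symm, lo_pair, hT w hw] at h3
      have h4 := hQ (φ • y) w
      rw [ip_sub_right, ip_comm w (T' _)]
      linarith
    · rw [h1, h2, map_zero, ← pair_lo_hi (v (pair 0 (φ • y))), z2 y hy]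
      congr 1
      rw [← sub_eq_zero]
      refine eq_zero_of_class hy fun u hu c => ?_
      have h3 := h.con _ (X_pair hu hy c) _ (X_φr hy) (by
        rw [ip_pair, ip_zero_right, ip_φ_self, hy.2, pow_succ]; ring)
      rw [ip_pair_left, ip_pair_left, z2 y hy, ip_zero_right, add_zero, ip_zero_left, zero_add,
        hv u hu y hy c, hi_pair, hT' u hu] at h3
      have h4 := hQ u (φ • y)
      rw [ip_comm (T' u)] at h4
      rw [ip_sub_right]
      linarith
    · rw [hv a ha b hb hab, hT b hb, hT' a ha]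

end

/-- Rigidity on one half. -/
theorem half (ih : Inf k) {f : V k → V k} (ht : ∀ x ∈ X k, ip (φ • x) (f x) = 0)
    (hc : ∀ x ∈ X k, ∀ y ∈ X k, 2 * ip x y = 2 ^ k →
      ip (φ • x) (f y) + ip (φ • y) (f x) = 0) :
    ∃ D : V k →ₗ[ℝ] V k, (∀ a b, ip (D a) b = -ip a (D b)) ∧ ∀ x ∈ X k, f x = D (φ • x) := by
  obtain ⟨A, hA, hAf⟩ := ih (fun x => (starRingEnd ℂ) φ • f x)
    ⟨fun x hx => by rw [← ip_csmul_left]; exact ht x hx, fun x hx y hy hxy => by
      rw [← ip_csmul_left, ← ip_csmul_left]; exact hc x hx y hy hxy⟩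
  have hr : ∀ (c : ℂ) (r : ℝ) (x : V k), c • r • x = r • c • x := fun c r x => smul_comm _ _ _
  refine ⟨{ toFun := fun a => (1 / 4 : ℝ) • (φ • A ((starRingEnd ℂ) φ • a))
            map_add' := fun a b => by rw [smul_add, map_add, smul_add, smul_add]
            map_smul' := fun r a => by
              rw [hr, map_smul, hr, RingHom.id_apply, smul_comm] }, fun a b => ?_,
    fun x hx => ?_⟩
  · show ip ((1 / 4 : ℝ) • (φ • A ((starRingEnd ℂ) φ • a))) b =
      -ip a ((1 / 4 : ℝ) • (φ • A ((starRingEnd ℂ) φ • b)))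
    rw [ip_smul_left, ip_smul_right, ip_csmul_left, hA, ip_csmul_left, Complex.conj_conj]
    ring
  · show _ = (1 / 4 : ℝ) • (φ • A ((starRingEnd ℂ) φ • (φ • x)))
    have h2 : (starRingEnd ℂ) φ • φ • x = (2 : ℝ) • x := by
      rw [smul_smul, conjφ_mul]; funext s; simp
    rw [h2, map_smul, ← hAf x hx, hr, smul_smul, smul_smul, mul_comm φ, conjφ_mul]
    funext s
    simp
    ring

/-- The step. -/
theorem step (hk : 1 ≤ k) (ih : Inf k) : Inf (k + 1) := by
  intro v h
  obtain ⟨D₁, hD₁, hD₁v⟩ := half ih (f := fun x => lo (v (pair (φ • x) 0)))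
    (fun x hx => by
      have := h.tan _ (X_φl hx)
      rwa [ip_pair_left, ip_zero_left, add_zero] at this)
    (fun x hx y hy hxy => by
      have := h.con _ (X_φl hx) _ (X_φl hy) (by rw [ip_pair, ip_φ, ip_zero_left, pow_succ]; linarith)
      rwa [ip_pair_left, ip_zero_left, add_zero, ip_pair_left, ip_zero_left, add_zero] at this)
  obtain ⟨D₂, hD₂, hD₂v⟩ := half ih (f := fun x => hi (v (pair 0 (φ • x))))
    (fun x hx => by
      have := h.tan _ (X_φr hx)
      rwa [ip_pair_left, ip_zero_left, zero_add] at this)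
    (fun x hx y hy hxy => by
      have := h.con _ (X_φr hx) _ (X_φr hy) (by rw [ip_pair, ip_φ, ip_zero_left, pow_succ]; linarith)
      rwa [ip_pair_left, ip_zero_left, zero_add, ip_pair_left, ip_zero_left, zero_add] at this)
  have hskew : ∀ a b, ip (blk D₁ 0 0 D₂ a) b = -ip a (blk D₁ 0 0 D₂ b) := by
    intro a b
    rw [blk_apply, blk_apply, ip_pair_left, ip_comm a, ip_pair_left]
    simp only [LinearMap.zero_apply, zero_add, add_zero]
    rw [hD₁, hD₂, ip_comm (lo a), ip_comm (hi a)]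
    ring
  obtain ⟨A, hA, hAv⟩ := step0 (v := fun x => v x - blk D₁ 0 0 D₂ x) hk ih
    ⟨fun x hx => by
      have h1 := hskew x x
      rw [ip_comm] at h1
      rw [ip_sub_right, h.tan x hx]
      linarith, fun x hx y hy hxy => by
      have h1 := hskew x y
      rw [ip_comm] at h1
      have h2 := h.con x hx y hy hxy
      rw [ip_sub_right, ip_sub_right]
      linarith⟩
    (fun x hx => by
      rw [lo_sub, blk_pair, lo_pair, hD₁v x hx]
      simp)
    (fun x hx => by
      rw [hi_sub, blk_pair, hi_pair, hD₂v x hx]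
      simp)
  refine ⟨A + blk D₁ 0 0 D₂, fun a b => ?_, fun x hx => ?_⟩
  · rw [LinearMap.add_apply, LinearMap.add_apply, ip_add_left, ip_add_right, hA, hskew]; ring
  · rw [LinearMap.add_apply, ← hAv x hx]; abel

end Pool.Agent.Q141.BW
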